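import Mathlib
import Pool.Agent.H16.Elated

set_option autoImplicit false

namespace Pool.Agent.Results.MP_096971_nt.Unbounded

/-- the base-`b` elated function: leading digit times the sum of the squares of the digits -/
def elated (b a : ℕ) : ℕ :=
  (Nat.digits b a).getLastD 0 * ((Nat.digits b a).map (fun d => d ^ 2)).sum

/-- `C` is a cycle of the elated function: the orbit of a positive periodic point -/
def IsCycle (b : ℕ) (C : Set ℕ) : Prop :=
  ∃ x k : ℕ, 0 < x ∧ 0 < k ∧ (elated b)^[k] x = x ∧ C = {y | ∃ j : ℕ, y = (elated b)^[j] x}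

theorem result : ∀ M : ℕ, ∃ b : ℕ, 2 ≤ b ∧ (M : ℕ∞) < {C : Set ℕ | IsCycle b C}.encard := by
  intro M
  obtain ⟨b, hb, S, hS, hG⟩ := Pool.Agent.H16.Elated.many (M + 1) (Nat.succ_pos M)
  obtain ⟨b, rfl⟩ := Int.eq_ofNat_of_zero_le (show 0 ≤ b by omega)
  refine ⟨b, by omega, ?_⟩
  let f : ℤ × ℤ → ℕ := fun e => Nat.ofDigits b [e.2.toNat, e.1.toNat, 2]
  have hd : ∀ e ∈ S, Nat.digits b (f e) = [e.2.toNat, e.1.toNat, 2] := by
    intro e he
    obtain ⟨h1, h2, h3, h4, -⟩ := hG e he
    refine Nat.digits_ofDigits b (by omega) _ ?_ (by simp)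
    intro l hl
    simp only [List.mem_cons, List.not_mem_nil, or_false] at hl
    omega
  have hfix : ∀ e ∈ S, elated b (f e) = f e := by
    intro e he
    obtain ⟨h1, -, h3, -, h5⟩ := hG e he
    rw [elated, hd e he]
    obtain ⟨y, hy⟩ := Int.eq_ofNat_of_zero_le h1
    obtain ⟨z, hz⟩ := Int.eq_ofNat_of_zero_le h3
    simp only [f, hy, hz, Int.toNat_natCast, Nat.ofDigits] at h5 ⊢
    simp
    zify
    linear_combination h5
  have hpos : ∀ e ∈ S, 0 < f e := by
    intro e he
    rcases Nat.eq_zero_or_pos (f e) with h0 | h0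
    · have := hd e he
      rw [h0] at this
      simp at this
    · exact h0
  have hinj : Set.InjOn (fun e => ({f e} : Set ℕ)) S := by
    intro e he e' he' h
    have h0 : f e = f e' := Set.singleton_injective h
    have h1 := hd e he
    rw [h0, hd e' he'] at h1
    obtain ⟨g1, -, g2, -⟩ := hG e he
    obtain ⟨g3, -, g4, -⟩ := hG e' he'
    simp only [List.cons.injEq, and_true] at h1
    ext <;> omega
  have hsub : (fun e => ({f e} : Set ℕ)) '' S ⊆ {C : Set ℕ | IsCycle b C} := by
    rintro _ ⟨e, he, rfl⟩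
    refine ⟨f e, 1, hpos e he, one_pos, hfix e he, ?_⟩
    ext y
    simp [Function.iterate_fixed (hfix e he)]
  refine lt_of_lt_of_le ?_ (Set.encard_le_encard hsub)
  rw [hinj.encard_image, Set.encard_coe_eq_coe_finsetCard, hS]
  exact_mod_cast (by omega : M < M + 1 + 1)

end Pool.Agent.Results.MP_096971_nt.Unbounded
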